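import Pool.Agent.H752.PG.Stubs
import Pool.Agent.H640R2.GM.Stage
import Pool.Agent.H620R2.GaugeR.R8
import Pool.Agent.H620R2.GaugeR.R11
import Pool.Agent.H620R2.Gauge.A1
import Pool.Agent.H620R2.GaugeR.Seq

/-!
# Task P7: many oracles without generators
-/

namespace Pool.Agent.H752.PG

open Pool.Agent.NPC Pool.Agent.H620R2.Gauge Finset H568R2 MeasureTheory

/-- P7: many oracles without generators (from P6). -/
theorem t_nonnullG (h6 : St_gmod) : St_nonnullG := by
  classical
  intro f hf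
  have hne : Nonempty Alg := by
    obtain ⟨M, _⟩ := IsFP.of_poly (A := fun _ => false) (F := fun x => x) Poly.id
    exact ⟨M⟩
  obtain ⟨g, hg⟩ := exists_surjective_nat (Alg × Alg × ℕ)
  let e : ℕ → Alg × Alg × ℕ := fun j => g (Nat.unpair j).1
  choose P Q hPQ using fun j : ℕ => h6 (e j).1 (e j).2.1 (e j).2.2
  obtain ⟨x, hx, hP, hQ, c, hc⟩ := choose_seq f hf P Q
  have hfst : ∀ {z z' y : List Bool}, y ∈ blkG z → y ∈ blkG z' → z = z' := by
    rintro z z' y ⟨v, _, rfl⟩ ⟨v', _, h2⟩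
    have h3 := congrArg unpair h2
    rw [unpair_pairBits, unpair_pairBits] at h3
    exact (Prod.ext_iff.1 h3).1
  have hlen : ∀ i j, i < j → ∀ y ∈ blkG (x j), 2 * (x (i + 1)).length < y.length := by
    rintro i j hij y ⟨v, hv, rfl⟩
    rw [length_pairBits]
    have h7 : (x (i + 1)).length ≤ (x j).length := hx.monotone (Nat.succ_le_of_lt hij)
    omega
  have hdis : ∀ i j, i < j → Disjoint (blkG (x i)) (blkG (x j)) := by
    intro i j hij
    rw [Set.disjoint_left]
    intro y hy hy'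
    have h7 := hfst hy hy'
    exact hij.ne (hx.injective (congrArg List.length h7))
  obtain ⟨Φ, hΦ⟩ := Pool.Agent.H752.GM.t_stage (fun j => blkG (x j))
    (fun j A => ReqG (e j).1 (e j).2.1 (e j).2.2 A (x j))
    (fun j => 2 * (x (j + 1)).length) hlen hdis
    (fun j A A' hA hR => (hPQ j (x j)).2 A A' (fun y hy => hA y (hy.trans (hQ j))) hR)
    (fun j A => (hPQ j (x j)).1 (hP j) A)
  have huniv : 0 < ranO Set.univ := by
    rw [measure_univ]
    exact zero_lt_one
  refine not_null_of f Set.univ huniv Φ (blkR x)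
    (fun B y hy => (hΦ B).1 y (fun j hj => hy ?_)) c hc _ ?_
  · obtain ⟨v, hv, rfl⟩ := hj
    exact ⟨j, v, hv, rfl⟩
  · rintro B -
    rintro ⟨d, G, k, ⟨Md, hMd⟩, ⟨MG, hMG⟩, hGl, hev⟩
    obtain ⟨i, hi⟩ := hg (Md, MG, k)
    obtain ⟨m₀, hm₀⟩ := Filter.eventually_atTop.1 hev
    set j := Nat.pair i m₀ with hj
    have hej : e j = (Md, MG, k) := by
      simp only [e, hj, Nat.unpair_pair, hi]
    have h1 : j ≤ (x j).length := hx.le_apply
    have h2 : m₀ ≤ j := Nat.right_le_pair i m₀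
    have h3 : m₀ ≤ mm (x j) := by
      unfold mm
      omega
    have h4 := (hΦ B).2 j
    rw [hej] at h4
    refine h4 d G ?_ ?_ (hm₀ _ h3)
    · rw [hMd]
      simp
    · intro s hs
      exact ⟨hMG _, hGl _ s hs⟩

end Pool.Agent.H752.PG
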